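import Pool.Agent.Helper16.SD.GoalsS
import Pool.Agent.Helper8.SL.GA2
import Pool.Agent.Helper60.SL.DETP

/-! # SD-U_ARC (MP_fc6b1e_nt): Dirichlet for several places. -/

set_option autoImplicit false

namespace Pool.Agent.Helper48.SD.U_ARC

open NumberField Module
open Pool.Agent.Helper51.SigLeo Pool.Agent.Helper51.SixExp
open Pool.Agent.Helper17.SL (archLog)
open Pool.Agent.Helper17.SL.PkGA2
open Pool.Agent.Helper16.SD (alog)

theorem t : Pool.Agent.Helper16.SD.U_ARC := by
  intro K F _ _ _ _ _ _ _ _ E _ ε χ hχ d ρ hρ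
  have hli : LinearIndependent ℂ
      (fun (i : Fin d) (u : Additive (𝓞 F)ˣ) => alog ε χ (ρ i) u) := by
    rw [Fintype.linearIndependent_iff]
    intro z hz
    have hinj : Function.Injective (fun p : Fin d × (F ≃ₐ[K] F) =>
        InfinitePlace.mk ((ρ p.1).comp (p.2 : F →+* F))) := by
      rintro ⟨i, g⟩ ⟨j, h⟩ e
      have e' : InfinitePlace.mk ((ρ i).comp (g : F →+* F))
          = InfinitePlace.mk ((ρ j).comp (h : F →+* F)) := e
      have hij : i = j := by
        by_contra hne
        exact mk_ne (ρ i) (ρ j) (fun h' => hne (hρ i j h')) g h e'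
      subst hij
      rw [mk_inj (ρ i) e']
    have hm : ∀ p : Fin d × (F ≃ₐ[K] F),
        (InfinitePlace.mk ((ρ p.1).comp (p.2 : F →+* F))).mult = 2 := fun p => mult_two K _
    have key := fin_rel _ hinj hm (fun p => z p.1 * ε (χ p.2⁻¹ : Eˣ)) (fun u => by
      have h1 := congrFun hz (Additive.ofMul u)
      simp only [Finset.sum_apply, Pi.smul_apply, Pi.zero_apply, smul_eq_mul, alog,
        Finset.mul_sum] at h1
      rw [Fintype.sum_prod_type, ← h1]
      refine Finset.sum_congr rfl fun i _ => Finset.sum_congr rfl fun g _ => ?_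
      rw [mul_assoc]
      rfl)
    intro j
    by_contra hzj
    apply hχ
    ext g
    have h2 := key (j, g⁻¹) (j, 1)
    simp only [inv_inv, inv_one, map_one, Units.val_one, mul_one] at h2
    have h3 : ε (χ g : Eˣ) = 1 := mul_left_cancel₀ hzj (by rw [h2, mul_one])
    rw [MonoidHom.one_apply, Units.val_one]
    exact ε.injective (by rw [h3, map_one])
  obtain ⟨a, ha⟩ := Pool.Agent.Helper17.SL.PkDETP.thm ℂ (Additive (𝓞 F)ˣ) d _ hli
  refine ⟨a, ?_⟩
  rw [← Matrix.det_transpose]
  exact ha

end Pool.Agent.Helper48.SD.U_ARC
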