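import Pool.Agent.Helper71.SD.Goals

/-!
Packet HL7 of the disproof of `MP_dcced1_gt`.
-/

namespace Pool.Agent.Helper71.SD.HL7

open Pool.Agent.Helper71.AHtpy SimpleGraph

variable {V : Type} {G : SimpleGraph V} {n : ℕ}

theorem nearR {θ : Finset E → Quotient (suspSetoid V n)} (h : IsGraphMap (cube E) (Susp G n) θ)
    (S : Finset E) (e : E) :
    R G n (lab (θ S)) (lev (θ S)) (lab (θ (tog e S))) (lev (θ (tog e S))) := by
  have h1 : Near (Susp G n) (θ S) (θ (tog e S)) := h S (tog e S) ⟨e, rfl⟩
  rwa [← pt_lab_lev (θ S), ← pt_lab_lev (θ (tog e S)), near_pt_iff (lev_le _) (lev_le _)] at h1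

theorem symm_tog {S T : Finset E} {e : E} (he : e ∈ symmDiff S T) :
    symmDiff (tog e S) T = (symmDiff S T).erase e := by
  ext i
  rw [Finset.mem_erase, Finset.mem_symmDiff, Finset.mem_symmDiff, mem_tog]
  rw [Finset.mem_symmDiff] at he
  by_cases hi : i = e
  · subst hi
    tauto
  · tauto

theorem symm_tog' {S T : Finset E} {e : E} (he : e ∉ symmDiff S T) :
    symmDiff (tog e S) T = insert e (symmDiff S T) := by
  ext i
  rw [Finset.mem_insert, Finset.mem_symmDiff, Finset.mem_symmDiff, mem_tog]
  rw [Finset.mem_symmDiff] at he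
  by_cases hi : i = e
  · subst hi
    tauto
  · tauto

theorem lip {θ : Finset E → Quotient (suspSetoid V n)} (h : IsGraphMap (cube E) (Susp G n) θ) :
    ∀ (m : ℕ) (S T : Finset E), (symmDiff S T).card = m → lev (θ S) ≤ lev (θ T) + m := by
  intro m
  induction m with
  | zero =>
    intro S T hST
    rw [Finset.card_eq_zero] at hST
    have : S = T := by
      have := symmDiff_eq_bot.1 hST
      exact this
    rw [this]
    omega
  | succ m ih =>
    intro S T hST
    obtain ⟨e, he⟩ : ∃ e, e ∈ symmDiff S T := by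
      rw [← Finset.nonempty_def, ← Finset.card_pos]
      omega
    have h1 := ih (tog e S) T (by
      rw [symm_tog he, Finset.card_erase_of_mem he, hST]
      rfl)
    have h2 := (nearR h S e).1.1
    omega

theorem card_symm (S z : Finset E) :
    (symmDiff S z).card + 2 * (S ∩ z).card = S.card + z.card := by
  have h1 : symmDiff S z = (S \ z) ∪ (z \ S) := rfl
  have h2 : Disjoint (S \ z) (z \ S) := by
    rw [Finset.disjoint_left]
    intro i hi hj
    rw [Finset.mem_sdiff] at hi hj
    exact hi.2 hj.1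
  rw [h1, Finset.card_union_of_disjoint h2]
  have h3 := Finset.card_sdiff_add_card_inter S z
  have h4 := Finset.card_sdiff_add_card_inter z S
  rw [Finset.inter_comm z S] at h4
  omega

theorem cnt_le (a : Fin 3) (S : Finset E) : cnt a S ≤ S.card := Finset.card_filter_le _ _

theorem cnt_block {z : Finset E} {a : Fin 3} (hz : ∀ i ∈ z, blk i = a) (b : Fin 3) :
    cnt b z = if b = a then z.card else 0 := by
  unfold cnt
  split_ifs with h
  · subst h
    rw [Finset.filter_true_of_mem hz]
  · rw [Finset.card_eq_zero, Finset.filter_eq_empty_iff]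
    intro i hi h2
    exact h (h2.symm.trans (hz i hi))

theorem cnt_insert {z : Finset E} {e : E} (he : e ∉ z) (b : Fin 3) :
    cnt b (insert e z) = cnt b z + if blk e = b then 1 else 0 := by
  unfold cnt
  rw [Finset.filter_insert]
  split_ifs with h
  · rw [Finset.card_insert_of_notMem]
    intro h2
    exact he (Finset.mem_filter.1 h2).1
  · rfl

section
variable {eta : V → ℕ} {F : V → Fin 3 → ℤ} {θ : Finset E → Quotient (suspSetoid V 6)}

theorem lemG (H : Hole G eta F 6 3 θ)
    (h2 : ∀ S, (∀ a, cnt a S ≤ 5) → ∀ a, 3 ≤ lev (θ S) + (5 - cnt a S) ∧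
      lev (θ S) ≤ 3 + (5 - cnt a S))
    {z S : Finset E} (hz : z.card ≤ 4) {a : Fin 3} (hza : ∀ i ∈ z, blk i = a)
    (h0 : lev (θ z) = 0) (hS : S.card ≤ 3) (h5 : 5 ≤ lev (θ S)) :
    z.card = 2 ∧ S.card = 3 ∧ Disjoint z S ∧ ∀ W ⊆ z ∪ S, lev (θ W) = (symmDiff z W).card ∧
      (W ≠ z → lab (θ W) = lab (θ S)) := by
  have hcz : ∀ b, cnt b z ≤ 5 := fun b => (cnt_le b z).trans (by omega)
  have hca : cnt a z = z.card := by rw [cnt_block hza a, if_pos rfl]
  have h1 := (h2 z hcz a).1
  rw [h0, hca] at h1
  have hlip := lip H.gm _ S z rfl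
  rw [h0] at hlip
  have hc := card_symm S z
  have hz2 : z.card = 2 := by omega
  have hS3 : S.card = 3 := by omega
  have hi0 : (S ∩ z).card = 0 := by omega
  have hdis : Disjoint z S := by
    rw [Finset.card_eq_zero, Finset.inter_comm, ← Finset.disjoint_iff_inter_eq_empty] at hi0
    exact hi0
  have hdis' := Finset.disjoint_left.1 hdis
  have hlev : ∀ W ⊆ z ∪ S, (symmDiff z W).card + (symmDiff W S).card = 5 ∧
      lev (θ W) = (symmDiff z W).card := by
    intro W hW
    have h3 : (symmDiff z W).card + (symmDiff W S).card = 5 := by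
      have hd : Disjoint (symmDiff z W) (symmDiff W S) := by
        rw [Finset.disjoint_left]
        intro i hi hj
        rw [Finset.mem_symmDiff] at hi hj
        have := hdis' (a := i)
        have h6 := @hW i
        rw [Finset.mem_union] at h6
        tauto
      have hu : symmDiff z W ∪ symmDiff W S = z ∪ S := by
        ext i
        rw [Finset.mem_union, Finset.mem_union, Finset.mem_symmDiff, Finset.mem_symmDiff]
        have := hdis' (a := i)
        have h6 := @hW i
        rw [Finset.mem_union] at h6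
        tauto
      rw [← Finset.card_union_of_disjoint hd, hu, Finset.card_union_of_disjoint hdis]
      omega
    have h6 := lip H.gm _ W z rfl
    have h7 := lip H.gm _ S W rfl
    rw [h0, symmDiff_comm] at h6
    rw [symmDiff_comm] at h7
    exact ⟨h3, by omega⟩
  refine ⟨hz2, hS3, hdis, ?_⟩
  have hlab : ∀ (k : ℕ) (W : Finset E), W ⊆ z ∪ S → (symmDiff W S).card = k → W ≠ z →
      lab (θ W) = lab (θ S) := by
    intro k
    induction k with
    | zero =>
      intro W _ hk _
      rw [Finset.card_eq_zero] at hk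
      have : W = S := symmDiff_eq_bot.1 hk
      rw [this]
    | succ k ih =>
      intro W hW hk hWz
      obtain ⟨e, he⟩ : ∃ e, e ∈ symmDiff W S := by
        rw [← Finset.nonempty_def, ← Finset.card_pos]
        omega
      have hsub : tog e W ⊆ z ∪ S := by
        intro i hi
        rw [mem_tog] at hi
        rw [Finset.mem_symmDiff] at he
        rcases hi with hi | hi
        · exact hW hi.1
        · rcases he with he | he
          · exact absurd he.1 (hi.1 ▸ hi.2)
          · rw [hi.1]
            exact Finset.mem_union_right _ he.1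
      have hcard : (symmDiff (tog e W) S).card = k := by
        rw [symm_tog he, Finset.card_erase_of_mem he, hk]
        rfl
      obtain ⟨l1, l2⟩ := hlev W hW
      obtain ⟨l3, l4⟩ := hlev (tog e W) hsub
      have hWz0 : (symmDiff z W).card ≠ 0 := by
        rw [Ne, Finset.card_eq_zero]
        intro h
        exact hWz (symmDiff_eq_bot.1 h).symm
      have hne : tog e W ≠ z := by
        intro h
        rw [h, h0, ← h, symmDiff_self] at l4
        rw [h, symmDiff_self] at l3
        simp only [Finset.bot_eq_empty, Finset.card_empty] at l3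
        rw [← h, hcard] at l3
        omega
      rw [← ih (tog e W) hsub hcard hne]
      have hR := (nearR H.gm W e).2
      rw [l2, l4] at hR
      rcases hR with h | h | h | h | h | h
      · omega
      · omega
      · omega
      · omega
      · exact h
      · omega
  intro W hW
  exact ⟨(hlev W hW).2, fun h => hlab _ W hW rfl h⟩

theorem lemC (H : Hole G eta F 6 3 θ)
    (h2 : ∀ S, (∀ a, cnt a S ≤ 5) → ∀ a, 3 ≤ lev (θ S) + (5 - cnt a S) ∧
      lev (θ S) ≤ 3 + (5 - cnt a S))
    (h3 : ∀ S, (∀ a, cnt a S ≤ 5) → ∀ a, (∀ S', S ⊆ S' → (∀ i ∈ S', i ∉ S → blk i = a) →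
      cnt a S' ≤ 5 → 0 < lev (θ S') ∧ lev (θ S') < 6) →
      eta (lab (θ S)) ≤ 5 - cnt a S ∧
      |(lev (θ S) : ℤ) - (3 : ℕ)| + ∑ b, |F (lab (θ S)) b - (if b = a then 3 else min 3 (cnt b S : ℤ))| ≤
        5 - (cnt a S : ℤ))
    {z S : Finset E} (hz : z.card ≤ 4) {a : Fin 3} (hza : ∀ i ∈ z, blk i = a)
    (h0 : lev (θ z) = 0) (hS : S.card ≤ 3) (h5 : 5 ≤ lev (θ S)) {e : E} (he : e ∈ S) :
    2 + ∑ b, |F (lab (θ S)) b - (if b = a then 3 else min 3 (if blk e = b then (1 : ℤ) else 0))| ≤
      5 - (2 + if blk e = a then (1 : ℤ) else 0) := by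
  obtain ⟨hz2, hS3, hdis, hW⟩ := lemG H h2 hz hza h0 hS h5
  have hez : e ∉ z := fun h => Finset.disjoint_left.1 hdis h he
  have hsub : insert e z ⊆ z ∪ S := by
    intro i hi
    rw [Finset.mem_insert] at hi
    rcases hi with hi | hi
    · rw [hi]
      exact Finset.mem_union_right _ he
    · exact Finset.mem_union_left _ hi
  obtain ⟨w1, w2⟩ := hW _ hsub
  have w3 : insert e z ≠ z := by
    intro h
    rw [Finset.insert_eq_self] at h
    exact hez h
  have w2' := w2 w3
  have w4 : (symmDiff z (insert e z)).card = 1 := by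
    have : symmDiff z (insert e z) = {e} := by
      ext i
      rw [Finset.mem_symmDiff, Finset.mem_insert, Finset.mem_singleton]
      constructor
      · rintro (h | h)
        · exact absurd (Or.inr h.1) h.2
        · rcases h.1 with h6 | h6
          · exact h6
          · exact absurd h6 h.2
      · rintro rfl
        exact Or.inr ⟨Or.inl rfl, hez⟩
    rw [this, Finset.card_singleton]
  rw [w4] at w1
  have hcnt : ∀ b, cnt b (insert e z) = (if b = a then 2 else 0) + if blk e = b then 1 else 0 := by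
    intro b
    rw [cnt_insert hez, cnt_block hza, hz2]
  have hle : ∀ b, cnt b (insert e z) ≤ 5 := by
    intro b
    rw [hcnt]
    split_ifs <;> omega
  have hcond : ∀ S', insert e z ⊆ S' → (∀ i ∈ S', i ∉ insert e z → blk i = a) →
      cnt a S' ≤ 5 → 0 < lev (θ S') ∧ lev (θ S') < 6 := by
    intro S' h6 h7 h8
    have h9 : ∀ b, b ≠ a → cnt b S' = cnt b (insert e z) := by
      intro b hb
      unfold cnt
      congr 1
      ext i
      rw [Finset.mem_filter, Finset.mem_filter]
      constructor
      · rintro ⟨h10, h11⟩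
        refine ⟨?_, h11⟩
        by_contra h12
        exact hb (h11.symm.trans (h7 i h10 h12))
      · rintro ⟨h10, h11⟩
        exact ⟨h6 h10, h11⟩
    have h10 : ∀ b, cnt b S' ≤ 5 := by
      intro b
      by_cases hb : b = a
      · rw [hb]; exact h8
      · rw [h9 b hb]; exact hle b
    have h11 := h2 S' h10 a
    have h12 : cnt a (insert e z) ≤ cnt a S' :=
      Finset.card_le_card (Finset.filter_subset_filter _ h6)
    have h13 : 2 ≤ cnt a (insert e z) := by
      rw [hcnt, if_pos rfl]
      omega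
    by_cases h14 : 3 ≤ cnt a S'
    · constructor <;> omega
    · have h15 : S' = insert e z := by
        apply Finset.Subset.antisymm _ h6
        intro i hi
        by_contra h16
        have h17 := h7 i hi h16
        have h18 : (insert e z).filter (fun i => blk i = a) ⊂ S'.filter (fun i => blk i = a) := by
          rw [Finset.ssubset_iff_of_subset (Finset.filter_subset_filter _ h6)]
          refine ⟨i, Finset.mem_filter.2 ⟨hi, h17⟩, ?_⟩
          intro h19
          exact h16 (Finset.mem_filter.1 h19).1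
        have h20 := Finset.card_lt_card h18
        unfold cnt at h12 h13 h14
        omega
      rw [h15, w1]
      omega
  have hfin := (h3 (insert e z) hle a hcond).2
  rw [w1, w2', hcnt a, if_pos rfl] at hfin
  have hsum : ∑ b, |F (lab (θ S)) b - (if b = a then 3 else min 3 (cnt b (insert e z) : ℤ))|
      = ∑ b, |F (lab (θ S)) b - (if b = a then 3 else min 3 (if blk e = b then (1 : ℤ) else 0))| := by
    apply Finset.sum_congr rfl
    intro b _
    by_cases hb : b = a
    · rw [if_pos hb, if_pos hb]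
    · rw [if_neg hb, if_neg hb, hcnt b, if_neg hb]
      push_cast
      rw [zero_add]
  rw [hsum] at hfin
  have habs : |((1 : ℕ) : ℤ) - ((3 : ℕ) : ℤ)| = 2 := by norm_num
  rw [habs] at hfin
  push_cast at hfin
  exact hfin

end

theorem exists_third : ∀ a b : Fin 3, ∃ c : Fin 3, c ≠ a ∧ c ≠ b := by decide

theorem arith (f : Fin 3 → ℤ) (a b : Fin 3)
    (h : 2 + ∑ x, |f x - (if x = a then 3 else min 3 (if b = x then (1 : ℤ) else 0))| ≤
      5 - (2 + if b = a then (1 : ℤ) else 0)) :
    2 ≤ f a ∧ ∃ c, f c ≤ 1 ∧ 6 ≤ ∑ x, |f x - (if x = c then 3 else min 3 0)| := by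
  rw [Fin.sum_univ_three] at h
  simp only [abs_eq_max_neg] at h
  constructor
  · fin_cases a <;> fin_cases b <;> simp at h ⊢ <;> omega
  · obtain ⟨c, h1, h2⟩ := exists_third a b
    refine ⟨c, ?_, ?_⟩
    · fin_cases a <;> fin_cases b <;> fin_cases c <;> simp at h h1 h2 ⊢ <;> omega
    · rw [Fin.sum_univ_three]
      simp only [abs_eq_max_neg]
      fin_cases a <;> fin_cases b <;> fin_cases c <;> simp at h h1 h2 ⊢ <;> omega

theorem hl7 : S_XC1 → S_HL2 → S_HL3 → S_HL7 := by
  intro _ hHL2 hHL3 V G eta F θ H z hz h0 S hS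
  by_contra hcon
  have h5 : 5 ≤ lev (θ S) := by omega
  have h2 : ∀ S, (∀ a, cnt a S ≤ 5) → ∀ a, 3 ≤ lev (θ S) + (5 - cnt a S) ∧
      lev (θ S) ≤ 3 + (5 - cnt a S) := hHL2 V G eta F 6 3 θ H
  have h3 := hHL3 V G eta F 6 3 θ H
  obtain ⟨hz4, a, hza⟩ := hz
  obtain ⟨hz2, hS3, hdis, hW⟩ := lemG H h2 hz4 hza h0 hS h5
  obtain ⟨e, he⟩ : ∃ e, e ∈ S := by
    rw [← Finset.nonempty_def, ← Finset.card_pos]
    omega
  have hC := lemC H h2 h3 hz4 hza h0 hS h5 he
  obtain ⟨_, c, hc1, hc2⟩ := arith _ _ _ hC
  -- the empty set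
  obtain ⟨e1, e2⟩ := hW ∅ (Finset.empty_subset _)
  have hzne : (∅ : Finset E) ≠ z := by
    intro h
    rw [← h] at hz2
    simp at hz2
  have e2' := e2 hzne
  have e3 : (symmDiff z ∅).card = 2 := by
    rw [← Finset.bot_eq_empty, symmDiff_bot, hz2]
  rw [e3] at e1
  have hc0 : ∀ b, cnt b (∅ : Finset E) = 0 := fun b => rfl
  by_cases hpol : ∀ S', (∅ : Finset E) ⊆ S' → (∀ i ∈ S', i ∉ (∅ : Finset E) → blk i = c) →
      cnt c S' ≤ 5 → 0 < lev (θ S') ∧ lev (θ S') < 6
  · have h6 := (h3 ∅ (fun b => by rw [hc0]; omega) c hpol).2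
    rw [e1, e2'] at h6
    simp only [hc0] at h6
    have habs : |((2 : ℕ) : ℤ) - ((3 : ℕ) : ℤ)| = 1 := by norm_num
    rw [habs] at h6
    push_cast at h6
    linarith
  · push Not at hpol
    obtain ⟨z', _, hz', hz'5, hlev⟩ := hpol
    have hz'c : ∀ i ∈ z', blk i = c := fun i hi => hz' i hi (Finset.notMem_empty i)
    have hcard : cnt c z' = z'.card := by rw [cnt_block hz'c c, if_pos rfl]
    have hall : ∀ b, cnt b z' ≤ 5 := by
      intro b
      refine (cnt_le b z').trans ?_
      rw [← hcard]
      exact hz'5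
    have hne5 : z'.card ≠ 5 := by
      intro h
      obtain ⟨v, hv, _⟩ := H.forced z' hall ⟨c, by rw [hcard, h]⟩
      rw [hv, lev_pt] at hlev
      simp at hlev
    have hz'4 : z'.card ≤ 4 := by omega
    have h7 := h2 z' hall c
    have h8 := lip H.gm _ z' ∅ rfl
    have h9 : (symmDiff z' ∅).card = z'.card := by
      rw [← Finset.bot_eq_empty, symmDiff_bot]
    rw [h9, e1] at h8
    have h10 : lev (θ z') = 0 := by
      by_contra h11
      have h12 := hlev (by omega)
      omega
    have hC' := lemC H h2 h3 hz'4 hz'c h10 hS h5 he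
    obtain ⟨h13, _⟩ := arith _ _ _ hC'
    omega

end Pool.Agent.Helper71.SD.HL7
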